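import Pool.Agent.W97.KE.Stm

/-!
The points of order `7` of `y² = x³ - 11x² - x` in characteristic `98911`.
-/

set_option autoImplicit false

open scoped Classical

namespace Pool.Agent.W946.KE

open Pool.Agent.W97.KE
open Pool.Agent.W97.MT (affCount)
open Pool.Agent.W97.V20 (E4)

/-- evaluation of a list of coefficients -/
def evL {F : Type} [CommRing F] (x : F) : List ℤ → F
  | [] => 0
  | c :: L => (c : F) + x * evL x L

/-- multiplication by `X - a` modulo `98911`, with a carry -/
def mulLin (a : ℤ) : ℤ → List ℤ → List ℤ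
  | c, [] => [c]
  | c, d :: L => (c - a * d) % 98911 :: mulLin a d L

/-- product -/
def prodL : List ℤ → List ℤ
  | [] => [7]
  | a :: L => mulLin a 0 (prodL L)

theorem emod_cast {F : Type} [CommRing F] (h : (98911 : F) = 0) (n : ℤ) :
    ((n % 98911 : ℤ) : F) = n := by
  have h1 : n % 98911 = n - 98911 * (n / 98911) := by omega
  rw [h1]
  push_cast
  rw [h]
  ring

theorem ev_mulLin {F : Type} [CommRing F] (h : (98911 : F) = 0) (x : F) (a : ℤ) (L : List ℤ) :
    ∀ c : ℤ, evL x (mulLin a c L) = c + (x - a) * evL x L := by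
  induction L with
  | nil => intro c; simp [mulLin, evL]
  | cons d L ih =>
    intro c
    rw [mulLin, evL, ih, emod_cast h, evL]
    push_cast
    ring

theorem ev_prodL {F : Type} [CommRing F] (h : (98911 : F) = 0) (x : F) (L : List ℤ) :
    evL x (prodL L) = 7 * (L.map fun a : ℤ => x - (a : F)).prod := by
  induction L with
  | nil => simp [prodL, evL]
  | cons d L ih =>
    rw [prodL, ev_mulLin h, ih]
    simp only [List.map_cons, List.prod_cons, Int.cast_zero]
    ring

theorem ev_sum {F : Type} [CommRing F] (x : F) (L : List ℤ) :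
    ∑ i ∈ Finset.range L.length, ((L.getD i 0 : ℤ) : F) * x ^ i = evL x L := by
  induction L with
  | nil => simp [evL]
  | cons d L ih =>
    rw [List.length_cons, Finset.sum_range_succ', evL, ← ih, Finset.mul_sum, add_comm]
    congr 1
    · simp
    · refine Finset.sum_congr rfl fun i _ => ?_
      simp only [List.getD_cons_succ]
      ring

theorem ev_emod {F : Type} [CommRing F] (h : (98911 : F) = 0) (x : F) (L : List ℤ) :
    evL x (L.map fun n => n % 98911) = evL x L := by
  induction L with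
  | nil => rfl
  | cons d L ih => rw [List.map_cons, evL, evL, ih, emod_cast h]

/-- the roots with the square roots of the values of `x³ - 11x² - x` -/
def rts : List (ℤ × ℤ) := [(1657, 57360), (1976, 82205), (5006, 15431), (9903, 23354),
  (10549, 39834), (15036, 89940), (22431, 39075), (27786, 79038), (28778, 79303), (33593, 91651),
  (36062, 59080), (38056, 85790), (41040, 51386), (44770, 92828), (57143, 42868), (57740, 68827),
  (65274, 70214), (67644, 30164), (71540, 45709), (74664, 82002), (88208, 71032), (94871, 55256),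
  (96548, 30339), (97834, 3735)]

theorem prod_eq : (prodL (rts.map Prod.fst)).map (fun n => n % 98911) =
    cf7.map (fun n => n % 98911) := by
  decide +kernel

theorem rts_sq : ∀ q ∈ rts, (q.2 ^ 2 - (q.1 ^ 3 - 11 * q.1 ^ 2 - q.1)) % 98911 = 0 := by
  decide +kernel

theorem eval_Psi7 {F : Type} [Field F] (x : F) :
    (Psi7.map (Int.castRingHom F)).eval x = evL x cf7 := by
  rw [← ev_sum x cf7]
  rw [Psi7, Polynomial.map_sum, Polynomial.eval_finsetSum]
  refine Finset.sum_congr rfl fun i _ => ?_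
  simp

theorem roots_Psi7 {F : Type} [Field F] (h : (98911 : F) = 0) (h7 : (7 : F) ≠ 0) (x : F)
    (hx : (Psi7.map (Int.castRingHom F)).eval x = 0) :
    ∃ q ∈ rts, x = ((q.1 : ℤ) : F) := by
  rw [eval_Psi7, ← ev_emod h, ← prod_eq, ev_emod h, ev_prodL h] at hx
  have h2 := (mul_eq_zero.1 hx).resolve_left h7
  rw [List.prod_eq_zero_iff] at h2
  simp only [List.mem_map] at h2
  obtain ⟨a, ⟨q, hq, rfl⟩, ha⟩ := h2
  exact ⟨q, hq, sub_eq_zero.1 ha⟩

theorem cast_ne {F : Type} [Field F] [CharP F 98911] (n : ℕ) (h : ¬ 98911 ∣ n) :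
    ((n : ℕ) : F) ≠ 0 := by
  intro h2
  exact h ((CharP.cast_eq_zero_iff F 98911 n).1 h2)

theorem s_split : S_SPLIT := by
  intro _ x hx
  have hc : (98911 : AlgebraicClosure (ZMod 98911)) = 0 := by
    have := CharP.cast_eq_zero (AlgebraicClosure (ZMod 98911)) 98911
    exact_mod_cast this
  have h7 : (7 : AlgebraicClosure (ZMod 98911)) ≠ 0 := by
    have := cast_ne (F := AlgebraicClosure (ZMod 98911)) 7 (by norm_num)
    exact_mod_cast this
  obtain ⟨q, hq, rfl⟩ := roots_Psi7 hc h7 x hx
  refine ⟨((q.1 : ℤ) : ZMod 98911), ((q.2 : ℤ) : ZMod 98911), by simp, ?_⟩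
  have h1 := rts_sq q hq
  have h2 : (((q.2 ^ 2 - (q.1 ^ 3 - 11 * q.1 ^ 2 - q.1) : ℤ)) : ZMod 98911) = 0 := by
    rw [ZMod.intCast_zmod_eq_zero_iff_dvd]
    exact Int.dvd_of_emod_eq_zero h1
  push_cast at h2
  exact sub_eq_zero.1 h2

theorem eqn {F : Type} [Field F] (x y : F) :
    (E4.baseChange F).toAffine.Equation x y ↔ y ^ 2 = x ^ 3 - 11 * x ^ 2 - x := by
  rw [WeierstrassCurve.Affine.equation_iff]
  simp only [WeierstrassCurve.baseChange, WeierstrassCurve.map, E4]
  simp
  constructor
  · intro h; rw [h]; ring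
  · intro h; rw [h]; ring

theorem disc {F : Type} [Field F] (h : (2000 : F) ≠ 0) : (E4.baseChange F).Δ ≠ 0 := by
  have : (E4.baseChange F).Δ = 2000 := by
    simp only [WeierstrassCurve.baseChange, WeierstrassCurve.map, E4, WeierstrassCurve.Δ,
      WeierstrassCurve.b₂, WeierstrassCurve.b₄, WeierstrassCurve.b₆, WeierstrassCurve.b₈]
    simp
    norm_num
  rw [this]
  exact h

theorem mapPt_fix {W : WeierstrassCurve ℤ} {F : Type} [Field F] (f : F →+* F) {x y : F}
    (h : (W.baseChange F).toAffine.Nonsingular x y) (hx : f x = x) (hy : f y = y) :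
    mapPt W f (WeierstrassCurve.Affine.Point.some x y h) =
      WeierstrassCurve.Affine.Point.some x y h := by
  have : mapPt W f (WeierstrassCurve.Affine.Point.some x y h) =
      WeierstrassCurve.Affine.Point.some (f x) (f y) (by rw [hx, hy]; exact h) := rfl
  rw [this]
  congr 1

theorem mapPt_zero' {W : WeierstrassCurve ℤ} {F : Type} [Field F] (f : F →+* F) :
    mapPt W f (WeierstrassCurve.Affine.Point.zero) = WeierstrassCurve.Affine.Point.zero := rfl

theorem dvd_card (hP : S_PSI) (F : Type) [Field F] (h2 : (2 : F) ≠ 0) (h3 : (3 : F) ≠ 0)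
    (h5 : (5 : F) ≠ 0) (h7 : (7 : F) ≠ 0) (x y : F)
    (h : (E4.baseChange F).toAffine.Nonsingular x y)
    (hx : (Psi7.map (Int.castRingHom F)).eval x = 0) : 7 ∣ Nat.card (Pt E4 F) := by
  have h7 := (hP F h2 h3 h5 h7 x y h).2 hx
  have h0 : (WeierstrassCurve.Affine.Point.some x y h : Pt E4 F) ≠ 0 := by
    intro h
    cases h
  have h8 : addOrderOf (WeierstrassCurve.Affine.Point.some x y h : Pt E4 F) = 7 :=
    haveI : Fact (Nat.Prime 7) := ⟨by norm_num⟩
    addOrderOf_eq_prime h7 h0
  rw [← h8]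
  exact addOrderOf_dvd_natCard _

theorem card_gen (W : WeierstrassCurve ℤ) (F : Type) [Field F] [Finite F]
    (hd : (W.baseChange F).Δ ≠ 0) : Nat.card (Pt W F) = Nat.card {P : F × F //
      (W.map (Int.castRingHom F)).toAffine.Equation P.1 P.2} + 1 := by
  have e1 : Pt W F ≃ Option {P : F × F // (W.baseChange F).toAffine.Nonsingular P.1 P.2} :=
    { toFun := fun P => match P with
        | .zero => none
        | .some x y h => some ⟨(x, y), h⟩
      invFun := fun o => match o with
        | none => .zero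
        | some q => .some q.1.1 q.1.2 q.2
      left_inv := by rintro (_ | _) <;> rfl
      right_inv := by rintro (_ | _) <;> rfl }
  have e2 : {P : F × F // (W.baseChange F).toAffine.Nonsingular P.1 P.2} ≃
      {P : F × F // (W.map (Int.castRingHom F)).toAffine.Equation P.1 P.2} :=
    Equiv.subtypeEquivRight fun P =>
      (WeierstrassCurve.Affine.equation_iff_nonsingular_of_Δ_ne_zero hd).symm
  rw [Nat.card_congr (e1.trans (Equiv.optionCongr e2)), Finite.card_option]

theorem prime98911 : Nat.Prime 98911 := by norm_num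

theorem card_pt (l : ℕ) [Fact l.Prime] (h : ¬ l ∣ 2000) :
    Nat.card (Pt E4 (ZMod l)) = affCount E4 l + 1 := by
  have hd : (E4.baseChange (ZMod l)).Δ ≠ 0 := by
    refine disc ?_
    intro h2
    refine h ((CharP.cast_eq_zero_iff (ZMod l) l 2000).1 ?_)
    exact_mod_cast h2
  rw [card_gen E4 (ZMod l) hd, affCount]

theorem frob_fix {F K : Type} [Field F] [Field K] [Algebra F K] (l : ℕ) [ExpChar K l]
    (hF : ∀ z : F, z ^ l = z) (h : ∀ x : K, (Psi7.map (Int.castRingHom K)).eval x = 0 →
      ∃ x' y' : F, x = algebraMap _ _ x' ∧ y' ^ 2 = x' ^ 3 - 11 * x' ^ 2 - x')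
    (hP : S_PSI) (h2 : (2 : K) ≠ 0) (h3 : (3 : K) ≠ 0) (h5 : (5 : K) ≠ 0) (h7 : (7 : K) ≠ 0)
    (P : Pt E4 K) (h7P : 7 • P = 0) : mapPt E4 (frobenius K l) P = P := by
  cases P with
  | zero => exact mapPt_zero' _
  | some x y hn =>
    have h1 := (hP K h2 h3 h5 h7 x y hn).1 h7P
    obtain ⟨x', y', rfl, hy⟩ := h x h1
    have h2 := (eqn _ _).1 hn.1
    have h3 : y ^ 2 = (algebraMap F K y') ^ 2 := by
      rw [h2, ← map_pow (algebraMap F K) y', hy, map_sub, map_sub, map_mul, map_pow, map_pow,
        map_ofNat]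
    have hf : ∀ z : F, frobenius K l (algebraMap F K z) = algebraMap F K z := by
      intro z
      rw [frobenius_def, ← map_pow, hF]
    have hfy : frobenius K l y = y := by
      rcases sq_eq_sq_iff_eq_or_eq_neg.1 h3 with h4 | h4
      · rw [h4, hf]
      · rw [h4, map_neg, hf]
    exact mapPt_fix _ hn (hf x') hfy

theorem s_tor : S_TOR := by
  intro hP hS
  refine ⟨?_, ?_⟩
  · intro _ P h7P
    exact frob_fix (F := ZMod 98911) 98911 (fun z => ZMod.pow_card z) hS hP
      (by exact_mod_cast cast_ne (F := AlgebraicClosure (ZMod 98911)) 2 (by norm_num))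
      (by exact_mod_cast cast_ne (F := AlgebraicClosure (ZMod 98911)) 3 (by norm_num))
      (by exact_mod_cast cast_ne (F := AlgebraicClosure (ZMod 98911)) 5 (by norm_num))
      (by exact_mod_cast cast_ne (F := AlgebraicClosure (ZMod 98911)) 7 (by norm_num)) P h7P
  · have : Fact (Nat.Prime 98911) := ⟨prime98911⟩
    rw [← card_pt 98911 (by norm_num)]
    have hz : ((1657 : ℤ) : ZMod 98911) ^ 3 - 11 * ((1657 : ℤ) : ZMod 98911) ^ 2 -
        ((1657 : ℤ) : ZMod 98911) = ((57360 : ℤ) : ZMod 98911) ^ 2 := by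
      have h1 := rts_sq (1657, 57360) (by decide +kernel)
      have h2 : (((57360 ^ 2 - (1657 ^ 3 - 11 * 1657 ^ 2 - 1657) : ℤ)) : ZMod 98911) = 0 := by
        rw [ZMod.intCast_zmod_eq_zero_iff_dvd]
        exact Int.dvd_of_emod_eq_zero h1
      push_cast at h2
      push_cast
      exact (sub_eq_zero.1 h2).symm
    have hns : (E4.baseChange (ZMod 98911)).toAffine.Nonsingular ((1657 : ℤ) : ZMod 98911)
        ((57360 : ℤ) : ZMod 98911) := by
      refine (WeierstrassCurve.Affine.equation_iff_nonsingular_of_Δ_ne_zero ?_).1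
        ((eqn _ _).2 hz.symm)
      refine disc ?_
      have := cast_ne (F := ZMod 98911) 2000 (by norm_num)
      exact_mod_cast this
    refine dvd_card hP (ZMod 98911)
      (by exact_mod_cast cast_ne (F := ZMod 98911) 2 (by norm_num))
      (by exact_mod_cast cast_ne (F := ZMod 98911) 3 (by norm_num))
      (by exact_mod_cast cast_ne (F := ZMod 98911) 5 (by norm_num))
      (by exact_mod_cast cast_ne (F := ZMod 98911) 7 (by norm_num)) _ _ hns ?_
    have hc : (98911 : ZMod 98911) = 0 := by
      have := CharP.cast_eq_zero (ZMod 98911) 98911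
      exact_mod_cast this
    rw [eval_Psi7, ← ev_emod hc, ← prod_eq, ev_emod hc, ev_prodL hc]
    refine mul_eq_zero_of_right _ ?_
    rw [List.prod_eq_zero_iff]
    simp only [List.mem_map]
    exact ⟨1657, ⟨(1657, 57360), by decide +kernel, rfl⟩, sub_self _⟩

end Pool.Agent.W946.KE
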